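import Pool.Agent.H75.OM.TC

/-! row INL of the board omn_modules (MP_0f8dca_lc): a circuit appended to other wires -/

set_option autoImplicit false

namespace Pool.Agent.H54.OM

open Pool.Agent.H75.OM

theorem crun_snoc (O : List Bool → Bool) (C : Circ) (g : Gate) (v : List Bool) :
    crun O (C ++ [g]) v = crun O C v ++ [g.val O (crun O C v)] := by
  unfold crun
  rw [List.foldl_append, List.foldl_cons, List.foldl_nil]

theorem crun_eq (O : List Bool → Bool) (C : Circ) (v : List Bool) :
    ∃ w : List Bool, crun O C v = v ++ w ∧ w.length = C.length := by
  induction C using List.reverseRecOn with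
  | nil => exact ⟨[], by simp [crun], rfl⟩
  | append_singleton C g ih =>
    obtain ⟨w, h1, h2⟩ := ih
    refine ⟨w ++ [g.val O (crun O C v)], ?_, by simp [h2]⟩
    rw [crun_snoc, h1, List.append_assoc]

theorem val_congr (O : List Bool → Bool) (g : Gate) (n m : ℕ) (ι : ℕ → ℕ) (v v' : List Bool)
    (h : ∀ i, v.getD (wr n m ι i) false = v'.getD i false) :
    (g.ren n m ι).val O v = g.val O v' := by
  cases g with
  | nand i j =>
    simp only [Gate.ren, Gate.val]
    rw [h i, h j]
  | ask l =>
    simp only [Gate.ren, Gate.val]
    rw [List.map_map]
    congr 1
    exact List.map_congr_left fun i _ => h i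

theorem pf_INL : T_INL := by
  intro O C x u ι h
  induction C using List.reverseRecOn with
  | nil => simp [crun]
  | append_singleton C g ih =>
    have h' : ∀ i < x.length, (ι i < u.length ∨ u.length + C.length ≤ ι i) ∧
        u.getD (ι i) false = x.getD i false := by
      intro i hi
      obtain ⟨h1, h2⟩ := h i hi
      refine ⟨?_, h2⟩
      rcases h1 with h1 | h1
      · exact Or.inl h1
      · right
        simp only [List.length_append, List.length_cons, List.length_nil] at h1
        omega
    have ih' := ih h'
    obtain ⟨w, hw, hwl⟩ := crun_eq O C x
    rw [hw, List.drop_left] at ih'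
    have hkey : ∀ i, (u ++ w).getD (wr x.length u.length ι i) false = (x ++ w).getD i false := by
      intro i
      unfold wr
      split_ifs with hi
      · obtain ⟨h1, h2⟩ := h i hi
        rw [List.getD_append _ _ _ _ hi]
        rcases h1 with h1 | h1
        · rw [List.getD_append _ _ _ _ h1, h2]
        · simp only [List.length_append, List.length_cons, List.length_nil] at h1
          rw [List.getD_eq_default _ _ (by rw [List.length_append]; omega), ← h2,
            List.getD_eq_default _ _ (by omega)]
      · rw [List.getD_append_right _ _ _ _ (by omega), List.getD_append_right _ _ _ _ (by omega)]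
        congr 1
        omega
    rw [List.map_append, List.map_cons, List.map_nil, crun_snoc, crun_snoc, hw, ih',
      val_congr O g _ _ _ _ _ hkey, List.append_assoc, List.append_assoc, List.drop_left]

end Pool.Agent.H54.OM
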